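import Pool.Agent.Run7.h232.DC.Mwu
import Pool.Agent.H671R2.PolyAuto
import Pool.Agent.NPC.Dec

/-!
# The greedy algorithm with multiplicative weights runs in polynomial time
-/

set_option autoImplicit false

namespace Pool.Agent.Run7.h232.DC

open Pool.Agent.NPC Pool.Agent.NPC.R671 Pool.Agent.Y600.DC

/-! ### The algorithm -/

/-- the closed neighbourhood matrix -/
def rowsL (M : List (List Bool)) : List (List Bool) :=
  M.zipIdx.map fun p => p.1.zipIdx.map fun q => q.1 || decide (q.2 = p.2)

/-- the load of a row -/
def loadL (s : List (ℕ × ℕ)) (r : List Bool) : ℕ :=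
  ((r.zip s).map fun p => if p.1 = true then p.2.2 else 0).sum

/-- a row of largest load -/
def best (s : List (ℕ × ℕ)) (C : List (List Bool)) : List Bool :=
  C.foldl (fun acc r => if loadL s acc < loadL s r then r else acc) (C.head?.getD [])

/-- one round -/
def stp (n : ℕ) (C : List (List Bool)) (s : List (ℕ × ℕ)) : List (ℕ × ℕ) :=
  ((best s C).zip s).map fun p =>
    if p.1 = true then (p.2.1 + 1, p.2.2 * (2 * n + 1)) else (p.2.1, p.2.2 * (2 * n + 2))

/-- the state at the end -/
def fin (M : List (List Bool)) : List (ℕ × ℕ) :=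
  (stp M.length (rowsL M))^[rounds M.length] (M.map fun _ => (0, 1))

/-- the test -/
def alg (p : List (List Bool) × ℕ) : Bool :=
  (fin p.1).all fun q => decide (rounds p.1.length < (p.2 + 1) * q.1)

/-! ### It runs in polynomial time -/

theorem rowsL_poly : Poly rowsL := by
  unfold rowsL
  fun_prop

theorem loadL_poly : Poly (fun p : List (ℕ × ℕ) × List Bool => loadL p.1 p.2) := by
  unfold loadL
  fun_prop

theorem loadL_poly' {α : Type} [TEnc α] {s : α → List (ℕ × ℕ)} {r : α → List Bool}
    (hs : Poly s) (hr : Poly r) : Poly (fun a => loadL (s a) (r a)) :=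
  loadL_poly.comp (hs.pair hr)

attribute [local fun_prop] loadL_poly' rowsL_poly
attribute [local irreducible] loadL rowsL

theorem foldl_mem {β : Type} (f : β → β → Bool) : ∀ (C : List β) (x : β),
    C.foldl (fun acc r => if f acc r = true then r else acc) x = x ∨
    C.foldl (fun acc r => if f acc r = true then r else acc) x ∈ C := by
  intro C
  induction C with
  | nil => intro x; exact Or.inl rfl
  | cons r C ih =>
    intro x
    rw [List.foldl_cons]
    rcases ih (if f x r = true then r else x) with h | h
    · rw [h]
      split_ifs with h1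
      · right; simp
      · left; rfl
    · right; exact List.mem_cons_of_mem _ h

theorem best_poly : Poly (fun p : List (ℕ × ℕ) × List (List Bool) => best p.1 p.2) := by
  unfold best
  refine Poly.foldl (F := fun (p : List (ℕ × ℕ) × List (List Bool)) acc r =>
    if loadL p.1 acc < loadL p.1 r then r else acc) (l := fun p => p.2)
    (s := fun p => p.2.head?.getD []) (by fun_prop) (by fun_prop) (by fun_prop)
    (Polynomial.X) ?_
  intro p k _
  have h1 : sz (p.2.head?.getD []) ≤ sz p.2 := by
    cases h : p.2 with
    | nil => simp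
    | cons a l => simp only [List.head?_cons, Option.getD_some, sz_list_cons]; omega
  have h0 : sz p.2 ≤ sz p := by
    obtain ⟨a, b⟩ := p
    simp only [sz_pair]
    omega
  rcases foldl_mem (fun acc r => decide (loadL p.1 acc < loadL p.1 r)) (p.2.take k)
    (p.2.head?.getD []) with h | h
  · simp only [decide_eq_true_eq] at h
    rw [h]
    simp only [Polynomial.eval_X]
    exact h1.trans h0
  · simp only [decide_eq_true_eq] at h
    have h2 := (sz_le_of_mem (List.mem_of_mem_take h)).le
    simp only [Polynomial.eval_X]
    exact h2.trans h0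

theorem best_poly' {α : Type} [TEnc α] {s : α → List (ℕ × ℕ)} {C : α → List (List Bool)}
    (hs : Poly s) (hC : Poly C) : Poly (fun a => best (s a) (C a)) :=
  best_poly.comp (hs.pair hC)

attribute [local fun_prop] best_poly'
attribute [local irreducible] best

theorem stp_poly : Poly (fun p : (List (List Bool) × ℕ) × List (ℕ × ℕ) =>
    stp p.1.1.length (rowsL p.1.1) p.2) := by
  unfold stp
  fun_prop

/-- the size of the state -/
def Sml (n t : ℕ) (s : List (ℕ × ℕ)) : Prop :=
  s.length ≤ n ∧ ∀ p ∈ s, p.1 ≤ t ∧ p.2 ≤ (2 * n + 2) ^ t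

theorem sml_stp {n t : ℕ} {s : List (ℕ × ℕ)} (h : Sml n t s) (C : List (List Bool)) :
    Sml n (t + 1) (stp n C s) := by
  obtain ⟨h1, h2⟩ := h
  refine ⟨?_, ?_⟩
  · unfold stp
    rw [List.length_map, List.length_zip]
    omega
  · intro p hp
    unfold stp at hp
    rw [List.mem_map] at hp
    obtain ⟨⟨b, q⟩, hq, rfl⟩ := hp
    have h3 := h2 q (List.of_mem_zip hq).2
    have h4 : (2 * n + 2) ^ (t + 1) = (2 * n + 2) ^ t * (2 * n + 2) := pow_succ _ _
    simp only
    split_ifs with hb
    · refine ⟨by simp only; omega, ?_⟩
      rw [h4]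
      exact Nat.mul_le_mul h3.2 (by omega)
    · refine ⟨by simp only; omega, ?_⟩
      rw [h4]
      exact Nat.mul_le_mul h3.2 le_rfl

theorem sml_iter (n : ℕ) (C : List (List Bool)) (s : List (ℕ × ℕ)) (h : Sml n 0 s) (t : ℕ) :
    Sml n t ((stp n C)^[t] s) := by
  induction t with
  | zero => exact h
  | succ t ih => rw [Function.iterate_succ_apply']; exact sml_stp ih C

theorem sz_sml {n t : ℕ} {s : List (ℕ × ℕ)} (h : Sml n t s) :
    sz s ≤ n * ((4 * t + 1) + (4 * ((2 * n + 3) * t + 1) + 1) + 1 + 1) + 1 := by
  obtain ⟨h1, h2⟩ := h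
  have h3 : ∀ p ∈ s, sz p ≤ (4 * t + 1) + (4 * ((2 * n + 3) * t + 1) + 1) + 1 := by
    rintro ⟨c, w⟩ hp
    obtain ⟨h4, h5⟩ := h2 _ hp
    simp only at h4 h5
    have h6 := sz_nat_le c
    have h7 := sz_nat_le w
    have h8 : c.size ≤ t := (Nat.size_le.2 Nat.lt_two_pow_self : c.size ≤ c).trans h4
    have h9 : w.size ≤ (2 * n + 3) * t + 1 := by
      rw [Nat.size_le]
      have h10 : 2 * n + 2 < 2 ^ (2 * n + 3) := lt_trans (by omega) (Nat.lt_two_pow_self (n := 2 * n + 3))
      calc w ≤ (2 * n + 2) ^ t := h5
        _ ≤ (2 ^ (2 * n + 3)) ^ t := Nat.pow_le_pow_left h10.le t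
        _ = 2 ^ ((2 * n + 3) * t) := by rw [pow_mul]
        _ < 2 ^ ((2 * n + 3) * t + 1) := Nat.pow_lt_pow_right (by norm_num) (by omega)
    rw [sz_pair]
    omega
  refine (sz_le_length_mul s _ h3).trans ?_
  have := Nat.mul_le_mul_right ((4 * t + 1) + (4 * ((2 * n + 3) * t + 1) + 1) + 1 + 1) h1
  omega

theorem rounds_upoly : UPoly (fun p : List (List Bool) × ℕ => rounds p.1.length) := by
  have h : UPoly (fun p : List (List Bool) × ℕ => p.1.length) :=
    UPoly.length (Poly.fst Poly.id)
  have h1 := h.add (UPoly.const 1)
  have h2 := (h1.mul h1).mul (h1.mul h1)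
  have h3 := (UPoly.const 8).mul h2
  unfold rounds
  convert h3 using 2
  ring

theorem fin_poly : Poly (fun p : List (List Bool) × ℕ => fin p.1) := by
  unfold fin
  have hl := rounds_upoly
  refine (Poly.iterLen (l := fun p : List (List Bool) × ℕ => List.replicate (rounds p.1.length) ())
    (s := fun p => p.1.map fun _ => ((0 : ℕ), (1 : ℕ)))
    (F := fun p s => stp p.1.length (rowsL p.1) s) hl (by fun_prop) stp_poly
    (Polynomial.X * ((4 * (8 * (Polynomial.X + 1) ^ 4) + 1) +
      (4 * ((2 * Polynomial.X + 3) * (8 * (Polynomial.X + 1) ^ 4) + 1) + 1) + 1 + 1) + 1) ?_).congr ?_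
  · intro p k hk
    rw [List.length_replicate] at hk
    have h0 : Sml p.1.length 0 (p.1.map fun _ => ((0 : ℕ), (1 : ℕ))) := by
      refine ⟨by simp, fun q hq => ?_⟩
      rw [List.mem_map] at hq
      obtain ⟨_, _, rfl⟩ := hq
      simp
    have h1 := sz_sml (sml_iter p.1.length (rowsL p.1) _ h0 k)
    refine h1.trans ?_
    have h2 : p.1.length ≤ sz p := by
      have := length_lt_sz p.1
      obtain ⟨a, b⟩ := p
      rw [sz_pair]
      simp only at this ⊢
      omega
    have h3 : k ≤ 8 * (sz p + 1) ^ 4 :=
      hk.trans (Nat.mul_le_mul_left _ (Nat.pow_le_pow_left (by omega) 4))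
    simp only [Polynomial.eval_add, Polynomial.eval_mul, Polynomial.eval_X, Polynomial.eval_one,
      Polynomial.eval_pow, Polynomial.eval_ofNat]
    gcongr
  · intro p
    rw [List.length_replicate]

theorem fin_poly' {α : Type} [TEnc α] {M : α → List (List Bool)} (hM : Poly M) :
    Poly (fun a => fin (M a)) :=
  Poly.comp (g := fun p : List (List Bool) × ℕ => fin p.1) (f := fun a => (M a, 0)) fin_poly
    (hM.pair (NPC.Poly.const (0 : ℕ)))

attribute [local fun_prop] fin_poly'
attribute [local irreducible] fin

theorem alg_poly : Poly alg := by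
  have h : Poly (fun p : List (List Bool) × ℕ => rounds p.1.length) := rounds_upoly.toPoly
  have h2 : Poly (fun x : (List (List Bool) × ℕ) × (ℕ × ℕ) =>
      decide (rounds x.1.1.length < (x.1.2 + 1) * x.2.1)) :=
    NPC.Poly.decide_lt (Poly.comp (g := fun p : List (List Bool) × ℕ => rounds p.1.length)
      (f := fun x : (List (List Bool) × ℕ) × (ℕ × ℕ) => x.1) h (NPC.Poly.fst NPC.Poly.id))
      (by fun_prop)
  exact NPC.Poly.all (l := fun p : List (List Bool) × ℕ => fin p.1)
    (p := fun (p : List (List Bool) × ℕ) (q : ℕ × ℕ) =>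
      decide (rounds p.1.length < (p.2 + 1) * q.1)) (fin_poly' (NPC.Poly.fst NPC.Poly.id)) h2

/-! ### Correctness -/

section Correct

theorem foldl_max {β : Type} (f : β → ℕ) : ∀ (C : List β) (x : β),
    f x ≤ f (C.foldl (fun acc r => if f acc < f r then r else acc) x) ∧
    ∀ r ∈ C, f r ≤ f (C.foldl (fun acc r => if f acc < f r then r else acc) x) := by
  intro C
  induction C with
  | nil => intro x; exact ⟨le_rfl, fun r hr => by simp at hr⟩
  | cons c C ih =>
    intro x
    rw [List.foldl_cons]
    obtain ⟨h1, h2⟩ := ih (if f x < f c then c else x)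
    have h3 : f x ≤ f (if f x < f c then c else x) ∧ f c ≤ f (if f x < f c then c else x) := by
      split_ifs with h
      · exact ⟨h.le, le_rfl⟩
      · exact ⟨le_rfl, by omega⟩
    refine ⟨h3.1.trans h1, fun r hr => ?_⟩
    rcases List.mem_cons.1 hr with h | h
    · rw [h]; exact h3.2.trans h1
    · exact h2 r h

theorem best_max (s : List (ℕ × ℕ)) (C : List (List Bool)) : ∀ r ∈ C,
    loadL s r ≤ loadL s (best s C) := by
  unfold best
  exact (foldl_max (loadL s) C _).2

theorem best_mem (s : List (ℕ × ℕ)) (C : List (List Bool)) (hC : C ≠ []) : best s C ∈ C := by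
  unfold best
  have h := foldl_mem (fun acc r => decide (loadL s acc < loadL s r)) C (C.head?.getD [])
  simp only [decide_eq_true_eq] at h
  rcases h with h | h
  · rw [h]
    cases C with
    | nil => exact absurd rfl hC
    | cons a l => simp
  · exact h

variable {n : ℕ} (G : SimpleGraph (Fin n))

open Classical in
/-- a row of the closed neighbourhood matrix -/
noncomputable def row (u : Fin n) : List Bool := List.ofFn fun v => decide (Close G u v)

theorem rowsL_adj : rowsL (adjMatrix G) = List.ofFn (row G) := by
  classical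
  unfold rowsL adjMatrix row
  apply List.ext_getElem
  · simp
  · intro i h1 h2
    simp only [List.getElem_map, List.getElem_zipIdx, List.getElem_ofFn]
    apply List.ext_getElem
    · simp
    · intro j h3 h4
      simp only [List.getElem_map, List.getElem_zipIdx, List.getElem_ofFn, zero_add]
      rw [Bool.eq_iff_iff]
      simp only [Bool.or_eq_true, decide_eq_true_eq, Close, Fin.mk.injEq]
      constructor
      · rintro (h | h)
        · exact Or.inr h
        · exact Or.inl h.symm
      · rintro (h | h)
        · exact Or.inr h.symm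
        · exact Or.inl h

theorem close_comm (u v : Fin n) : Close G u v ↔ Close G v u := by
  unfold Close
  rw [G.adj_comm, eq_comm]

variable (pick : ℕ → Fin n)

/-- the state of the algorithm -/
noncomputable def sta (t : ℕ) : List (ℕ × ℕ) :=
  List.ofFn fun v => (cnt G pick t v, wt G pick t v)

theorem loadL_row (t : ℕ) (u : Fin n) : loadL (sta G pick t) (row G u) = load G pick t u := by
  classical
  unfold loadL
  have h : (((row G u).zip (sta G pick t)).map fun p => if p.1 = true then p.2.2 else 0) =
      List.ofFn fun v => if Close G v u then wt G pick t v else 0 := by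
    unfold row sta
    apply List.ext_getElem
    · simp
    · intro i h1 h2
      simp only [List.getElem_map, List.getElem_zip, List.getElem_ofFn, decide_eq_true_eq]
      rw [close_comm]
  rw [h, List.sum_ofFn]
  unfold load
  rw [Finset.sum_filter]
  refine Finset.sum_congr rfl fun v _ => ?_
  by_cases hc : Close G v u
  · rw [if_pos hc, if_pos hc]; rfl
  · rw [if_neg hc, if_neg hc]

theorem stp_sta (t : ℕ) (C : List (List Bool)) (h : best (sta G pick t) C = row G (pick t)) :
    stp n C (sta G pick t) = sta G pick (t + 1) := by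
  classical
  unfold stp
  rw [h]
  unfold row sta
  apply List.ext_getElem
  · simp
  · intro i h1 h2
    simp only [List.getElem_map, List.getElem_zip, List.getElem_ofFn, decide_eq_true_eq]
    have hw := wt_succ G pick t ⟨i, by simpa using h2⟩
    rw [cnt_succ]
    by_cases hc : Close G ⟨i, by simpa using h2⟩ (pick t)
    · rw [if_pos hc] at hw ⊢
      rw [if_pos ((close_comm G _ _).1 hc)]
      refine Prod.ext rfl ?_
      simp only
      have : (2 * n + 2) * wt G pick t ⟨i, by simpa using h2⟩ =
        wt G pick t ⟨i, by simpa using h2⟩ * (2 * n + 1) + wt G pick t ⟨i, by simpa using h2⟩ := by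
        ring
      omega
    · rw [if_neg hc] at hw ⊢
      rw [if_neg (fun h => hc ((close_comm G _ _).1 h))]
      refine Prod.ext rfl ?_
      simp only
      rw [mul_comm]
      omega

end Correct

/-- the algorithm on bit strings -/
def algB (x : List Bool) : Bool := ((unbits (List (List Bool) × ℕ) x).map alg).getD false

theorem algB_bits (p : List (List Bool) × ℕ) : algB (bits p) = alg p := by
  unfold algB
  rw [unbits_bits]
  rfl

theorem algB_poly : Poly algB := by
  unfold algB
  refine NPC.Poly.optGetD (NPC.Poly.optMap_fp (h := fun _ a => alg a) poly_unbits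
    (Poly.comp (g := alg) (f := fun p : List Bool × (List (List Bool) × ℕ) => p.2) alg_poly
      (NPC.Poly.snd NPC.Poly.id))) (NPC.Poly.const false)

/-- **DC-ALG.** -/
theorem algo : S_ALG := by
  classical
  refine ⟨fun x => [algB x], polyTime_of_poly algB_poly, ?_, ?_⟩
  · intro G k
    simp only [algB_bits]
    have h1 : adjMatrix G = [] := by simp [adjMatrix]
    rw [h1]
    have h2 : fin [] = [] := by
      have h3 := (sml_iter 0 (rowsL []) [] ⟨le_rfl, by simp⟩ (rounds 0)).1
      unfold fin
      exact List.eq_nil_of_length_eq_zero (Nat.le_zero.1 h3)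
    simp [alg, h2]
  · intro n G k hn
    set C : List (List Bool) := List.ofFn (row G) with hC
    have hCne : C ≠ [] := by
      intro h
      have := congrArg List.length h
      rw [hC, List.length_ofFn] at this
      simp at this
      omega
    set S : ℕ → List (ℕ × ℕ) := fun t => (stp n C)^[t] ((adjMatrix G).map fun _ => (0, 1)) with hS
    have hpick : ∀ t, ∃ u : Fin n, best (S t) C = row G u := by
      intro t
      have := best_mem (S t) C hCne
      rw [hC, List.mem_ofFn] at this
      obtain ⟨u, hu⟩ := this
      exact ⟨u, by rw [hC]; exact hu.symm⟩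
    choose pick hp using hpick
    have hst : ∀ t, S t = sta G pick t := by
      intro t
      induction t with
      | zero =>
        simp only [hS, Function.iterate_zero, id_eq]
        unfold adjMatrix sta
        apply List.ext_getElem
        · simp
        · intro i h1 h2
          simp [cnt, wt]
      | succ t ih =>
        have h1 : S (t + 1) = stp n C (S t) := by
          simp only [hS, Function.iterate_succ_apply']
        rw [h1, ih]
        refine stp_sta G pick t C ?_
        rw [← ih]
        exact hp t
    refine ⟨pick, ?_, ?_⟩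
    · intro t _ u
      rw [← loadL_row, ← loadL_row, ← hst, ← hp t]
      refine best_max (S t) C _ ?_
      rw [hC, List.mem_ofFn]
      exact ⟨u, rfl⟩
    · simp only [algB_bits, List.cons.injEq, and_true]
      have hlen : (adjMatrix G).length = n := by simp [adjMatrix]
      have hfin : fin (adjMatrix G) = sta G pick (rounds n) := by
        unfold fin
        rw [hlen, rowsL_adj, ← hC]
        exact hst (rounds n)
      unfold alg
      simp only
      rw [hfin, hlen, List.all_eq_true]
      unfold sta
      constructor
      · intro h v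
        have := h (cnt G pick (rounds n) v, wt G pick (rounds n) v)
          ((List.mem_ofFn' _ _).2 ⟨v, rfl⟩)
        simpa using this
      · intro h p hp'
        rw [List.mem_ofFn'] at hp'
        obtain ⟨v, rfl⟩ := hp'
        simpa using h v

end Pool.Agent.Run7.h232.DC
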