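import Pool.Agent.Y600.DC.Stm

/-!
# Berge: balanced hypergraphs have bicolourings
-/

set_option autoImplicit false

namespace Pool.Agent.Run7.h232.DC

open Pool.Agent.Y600.DC

/-- the graph of the pairs which are the trace of an edge on `W` -/
def g2 {I V : Type} (R : I → V → Prop) (W : Finset V) : SimpleGraph V where
  Adj x y := x ≠ y ∧ x ∈ W ∧ y ∈ W ∧ ∃ i, R i x ∧ R i y ∧ ∀ z ∈ W, R i z → z = x ∨ z = y
  symm := ⟨by
    rintro x y ⟨h, hx, hy, i, h1, h2, h3⟩
    exact ⟨h.symm, hy, hx, i, h2, h1, fun z hz hi => (h3 z hz hi).symm⟩⟩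
  loopless := ⟨fun _ h => h.1 rfl⟩

/-- no odd closed walk -/
theorem no_odd {I V : Type} {R : I → V → Prop} (hR : RelBalanced R) (W : Finset V) :
    ∀ m : ℕ, Odd m → ∀ f : ℕ → V, (∀ i < m, (g2 R W).Adj (f i) (f (i + 1))) → f m = f 0 →
      False := by
  intro m
  induction m using Nat.strong_induction_on with
  | _ m ih =>
    intro hm f hf hf0
    by_cases hinj : ∀ a b, a < b → b < m → f a ≠ f b
    · have hm3 : 3 ≤ m := by
        rcases hm with ⟨k, hk⟩
        rcases Nat.eq_zero_or_pos k with h | h
        · subst h
          have h1 := hf 0 (by omega)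
          have h2 : m = 1 := by omega
          rw [h2] at hf0
          simp only [zero_add] at h1
          rw [hf0] at h1
          exact absurd rfl h1.ne
        · omega
      have : NeZero m := ⟨by omega⟩
      have : Fact (1 < m) := ⟨by omega⟩
      have hv : ∀ i : ZMod m, i.val < m := fun i => ZMod.val_lt i
      have hval : ∀ i : ZMod m, f (i + 1).val = f (i.val + 1) := by
        intro i
        rw [ZMod.val_add, ZMod.val_one]
        rcases Nat.lt_or_ge (i.val + 1) m with h | h
        · rw [Nat.mod_eq_of_lt h]
        · have h1 : i.val + 1 = m := by have := hv i; omega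
          rw [h1, Nat.mod_self, hf0]
      have hx : Function.Injective (fun i : ZMod m => f i.val) := by
        intro i j hij
        by_contra hne
        have hne' : i.val ≠ j.val := fun h => hne (ZMod.val_injective m h)
        rcases Nat.lt_or_gt_of_ne hne' with h | h
        · exact hinj _ _ h (hv j) hij
        · exact hinj _ _ h (hv i) hij.symm
      have hE : ∀ i : ZMod m, ∃ k : I, R k (f i.val) ∧ R k (f (i.val + 1)) ∧
          ∀ z ∈ W, R k z → z = f i.val ∨ z = f (i.val + 1) := fun i => (hf i.val (hv i)).2.2.2
      choose e he1 he2 he3 using hE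
      refine hR m hm hm3 e (fun i => f i.val) hx ?_
      intro i j
      constructor
      · intro h
        rcases he3 i _ (hf j.val (hv j)).2.1 h with h' | h'
        · exact Or.inl (hx h')
        · right
          apply hx
          change f j.val = f (i + 1).val
          rw [hval i]
          exact h'
      · rintro (h | h)
        · rw [h]
          exact he1 i
        · rw [h]
          change R (e i) (f (i + 1).val)
          rw [hval i]
          exact he2 i
    · push Not at hinj
      obtain ⟨a, b, hab, hbm, hfab⟩ := hinj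
      rcases Nat.even_or_odd (b - a) with he | ho
      · have ho : Odd (m - (b - a)) := by
          rcases hm with ⟨k, hk⟩
          rcases he with ⟨l, hl⟩
          exact ⟨k - l, by omega⟩
        refine ih (m - (b - a)) (by omega) ho (fun i => if i ≤ a then f i else f (i + (b - a)))
          ?_ ?_
        · intro i hi
          rcases Nat.lt_trichotomy i a with h | h | h
          · rw [if_pos h.le, if_pos (by omega : i + 1 ≤ a)]
            exact hf i (by omega)
          · subst h
            rw [if_pos le_rfl, if_neg (by omega)]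
            have h1 := hf b (by omega)
            rw [← hfab] at h1
            have h2 : i + 1 + (b - i) = b + 1 := by omega
            rw [h2]
            exact h1
          · rw [if_neg (by omega), if_neg (by omega)]
            have h1 := hf (i + (b - a)) (by omega)
            have h2 : i + 1 + (b - a) = i + (b - a) + 1 := by omega
            rw [h2]
            exact h1
        · rw [if_neg (by omega), if_pos (Nat.zero_le _)]
          have h2 : m - (b - a) + (b - a) = m := by omega
          rw [h2, hf0]
      · refine ih (b - a) (by omega) ho (fun i => f (a + i)) ?_ ?_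
        · intro i hi
          have := hf (a + i) (by omega)
          simpa [add_assoc] using this
        · have h2 : a + (b - a) = b := by omega
          change f (a + (b - a)) = f (a + 0)
          rw [h2, add_zero, hfab]

theorem g2_col {I V : Type} {R : I → V → Prop} (hR : RelBalanced R) (W : Finset V) :
    (g2 R W).Colorable 2 := by
  rw [SimpleGraph.two_colorable_iff_forall_loop_even]
  intro u w
  by_contra h
  rw [Nat.not_even_iff_odd] at h
  refine no_odd hR W w.length h (fun i => w.getVert i) (fun i hi => w.adj_getVert_succ hi) ?_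
  simp

theorem bool_eq {a b c : Bool} (h1 : a ≠ b) (h2 : a ≠ c) : b = c := by
  cases a <;> cases b <;> cases c <;> simp_all

open Classical in
/-- **DC-BICOL.** -/
theorem bicol : S_BICOL := by
  intro I V R hR W
  induction W using Finset.strongInduction with
  | _ W ih =>
    rcases W.eq_empty_or_nonempty with h0 | ⟨x0, hx0⟩
    · subst h0
      exact ⟨fun _ => true, by rintro i ⟨x, hx, _⟩; simp at hx⟩
    obtain ⟨b0⟩ := g2_col hR W
    -- a proper colouring with values in `Bool`
    obtain ⟨b, hb⟩ : ∃ b : V → Bool, ∀ x y, (g2 R W).Adj x y → b x ≠ b y := by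
      refine ⟨fun x => decide (b0 x = 0), fun x y h => ?_⟩
      have h1 := b0.valid h
      intro h2
      apply h1
      have h3 : (b0 x = 0) ↔ (b0 y = 0) := by simpa using h2
      have h4 := (b0 x).isLt
      have h5 := (b0 y).isLt
      apply Fin.ext
      have h6 : (b0 x : ℕ) = 0 ↔ (b0 y : ℕ) = 0 := by
        constructor
        · intro h
          have := h3.1 (Fin.ext h)
          rw [this]; rfl
        · intro h
          have := h3.2 (Fin.ext h)
          rw [this]; rfl
      omega
    -- the component of `x0`
    have hmemW : ∀ y, (g2 R W).Reachable x0 y → y ∈ W := by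
      intro y ⟨w⟩
      induction w using SimpleGraph.Walk.concatRec with
      | Hnil => exact hx0
      | @Hconcat u v z p h ih' => exact h.2.2.1
    set c := (g2 R W).connectedComponentMk x0 with hc
    have hcf : c.supp.Finite := W.finite_toSet.subset fun y hy => by
      rw [SimpleGraph.ConnectedComponent.mem_supp_iff, hc,
        SimpleGraph.ConnectedComponent.eq] at hy
      exact hmemW y hy.symm
    have hF : Finite c.supp := hcf
    have hF' : Finite c := hcf
    obtain ⟨⟨v, hv⟩, hpre⟩ :=
      c.connected_toSimpleGraph.exists_preconnected_induce_compl_singleton_of_finite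
    have hcsupp : ∀ y, y ∈ c.supp ↔ (g2 R W).Reachable y x0 := fun y => by
      rw [SimpleGraph.ConnectedComponent.mem_supp_iff, hc, SimpleGraph.ConnectedComponent.eq]
    have hvc : (g2 R W).Reachable v x0 := (hcsupp v).1 hv
    have hvW : v ∈ W := hmemW v hvc.symm
    obtain ⟨col, hcol⟩ := ih (W.erase v) (Finset.erase_ssubset hvW)
    -- along an edge both colourings change
    have hadj : ∀ y y', (g2 R W).Adj y y' → y ≠ v → y' ≠ v → col y ≠ col y' := by
      intro y y' h hy hy'
      obtain ⟨h1, h2, h3, i, h4, h5, h6⟩ := h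
      intro h7
      obtain ⟨z, hz, hz1, hz2⟩ := hcol i ⟨y, Finset.mem_erase.2 ⟨hy, h2⟩, y',
        Finset.mem_erase.2 ⟨hy', h3⟩, h1, h4, h5⟩ (!(col y))
      rcases h6 z (Finset.mem_of_mem_erase hz) hz1 with h | h
      · rw [h] at hz2
        simp at hz2
      · rw [h, ← h7] at hz2
        simp at hz2
    have hxor : ∀ p q : ({⟨v, hv⟩}ᶜ : Set c), (xor (col p.1.1) (b p.1.1)) =
        xor (col q.1.1) (b q.1.1) := by
      intro p q
      obtain ⟨w⟩ := hpre p q
      induction w with
      | nil => rfl
      | @cons u u' u'' h _ ih' =>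
        rw [← ih']
        have hA : (g2 R W).Adj u.1.1 u'.1.1 := h
        have h1 := hb _ _ hA
        have h2 := hadj _ _ hA (fun h => u.2 (Subtype.ext h)) (fun h => u'.2 (Subtype.ext h))
        revert h1 h2
        cases col u.1.1 <;> cases col u'.1.1 <;> cases b u.1.1 <;> cases b u'.1.1 <;> simp
    have hsame : ∀ y y', (g2 R W).Adj v y → (g2 R W).Adj v y' → col y = col y' := by
      intro y y' h h'
      have hy : y ∈ c := (hcsupp y).2 ((SimpleGraph.Adj.reachable h).symm.trans hvc)
      have hy' : y' ∈ c := (hcsupp y').2 ((SimpleGraph.Adj.reachable h').symm.trans hvc)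
      have h1 := hxor ⟨⟨y, hy⟩, fun h2 => h.ne (Subtype.ext_iff.1 h2).symm⟩
        ⟨⟨y', hy'⟩, fun h2 => h'.ne (Subtype.ext_iff.1 h2).symm⟩
      have h3 := bool_eq (hb _ _ h) (hb _ _ h')
      simp only at h1
      rw [h3] at h1
      revert h1
      cases col y <;> cases col y' <;> cases b y' <;> simp
    obtain ⟨cv, hcv⟩ : ∃ cv : Bool, ∀ y, (g2 R W).Adj v y → cv ≠ col y := by
      by_cases h : ∃ y, (g2 R W).Adj v y
      · obtain ⟨y, hy⟩ := h
        refine ⟨!(col y), fun y' hy' => ?_⟩
        rw [← hsame y y' hy hy']
        simp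
      · exact ⟨true, fun y hy => absurd ⟨y, hy⟩ h⟩
    refine ⟨Function.update col v cv, ?_⟩
    rintro i ⟨x, hx, y, hy, hxy, hix, hiy⟩ β
    by_cases hbig : ∃ x ∈ W.erase v, ∃ y ∈ W.erase v, x ≠ y ∧ R i x ∧ R i y
    · obtain ⟨z, hz, hz1, hz2⟩ := hcol i hbig β
      refine ⟨z, Finset.mem_of_mem_erase hz, hz1, ?_⟩
      rw [Function.update_of_ne (Finset.ne_of_mem_erase hz)]
      exact hz2
    · have hv' : ∃ y, y ∈ W ∧ y ≠ v ∧ R i v ∧ R i y := by
        by_cases hxv : x = v
        · subst hxv
          exact ⟨y, hy, hxy.symm, hix, hiy⟩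
        · by_cases hyv : y = v
          · subst hyv
            exact ⟨x, hx, hxy, hiy, hix⟩
          · exact absurd ⟨x, Finset.mem_erase.2 ⟨hxv, hx⟩, y, Finset.mem_erase.2 ⟨hyv, hy⟩, hxy,
              hix, hiy⟩ hbig
      obtain ⟨y1, hy1, hy1v, hiv, hiy1⟩ := hv'
      have hA : (g2 R W).Adj v y1 := by
        refine ⟨hy1v.symm, hvW, hy1, i, hiv, hiy1, fun z hz hiz => ?_⟩
        by_contra hcon
        push Not at hcon
        exact hbig ⟨z, Finset.mem_erase.2 ⟨hcon.1, hz⟩, y1, Finset.mem_erase.2 ⟨hy1v, hy1⟩,
          hcon.2, hiz, hiy1⟩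
      have h1 := hcv y1 hA
      by_cases hβ : cv = β
      · exact ⟨v, hvW, hiv, by rw [Function.update_self]; exact hβ⟩
      · refine ⟨y1, hy1, hiy1, ?_⟩
        rw [Function.update_of_ne hy1v]
        exact (bool_eq h1 hβ)

end Pool.Agent.Run7.h232.DC
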