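import Pool.Agent.Run7.h232.DC.Bicol

/-!
# Berge: good colourings of balanced hypergraphs, and integral covers from fractional ones
-/

set_option autoImplicit false

namespace Pool.Agent.Run7.h232.DC

open Pool.Agent.Y600.DC

open Classical in
/-- the colours seen by the edge `i` -/
noncomputable def seen {I V : Type} {m : ℕ} (R : I → V → Prop) (c : V → Fin m) (i : I) :
    Finset (Fin m) := Finset.univ.filter fun b => ∃ x, R i x ∧ c x = b

theorem mem_seen {I V : Type} {m : ℕ} {R : I → V → Prop} {c : V → Fin m} {i : I} {b : Fin m} :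
    b ∈ seen R c i ↔ ∃ x, R i x ∧ c x = b := by
  simp [seen]

open Classical in
/-- **DC-GOOD.** -/
theorem good : S_GOOD := by
  intro I V _ _ R hR m hm hcard
  have : Fintype I := Fintype.ofFinite I
  have : Fintype V := Fintype.ofFinite V
  have : NeZero m := ⟨by omega⟩
  obtain ⟨c, hc⟩ := Finite.exists_max (fun c : V → Fin m => ∑ i, (seen R c i).card)
  refine ⟨c, ?_⟩
  by_contra hcon
  push Not at hcon
  obtain ⟨i0, b0, hb0⟩ := hcon
  -- two points of the edge `i0` with the same colour
  obtain ⟨x1, hx1, y1, hy1, hxy1, hcxy⟩ : ∃ x, R i0 x ∧ ∃ y, R i0 y ∧ x ≠ y ∧ c x = c y := by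
    have h1 : (Finset.univ.erase b0).card < (Finset.univ.filter fun x => R i0 x).card := by
      have h2 := hcard i0
      rw [Set.ncard_eq_toFinset_card'] at h2
      have h3 : ({x | R i0 x} : Set V).toFinset = Finset.univ.filter fun x => R i0 x := by
        ext x; simp
      rw [h3] at h2
      rw [Finset.card_erase_of_mem (Finset.mem_univ _), Finset.card_univ, Fintype.card_fin]
      omega
    obtain ⟨x, hx, y, hy, hxy, h⟩ := Finset.exists_ne_map_eq_of_card_lt_of_maps_to h1
      (f := c) (fun x hx => by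
        simp only [Finset.coe_filter, Finset.mem_univ, true_and, Set.mem_ofPred_eq] at hx
        simp only [Finset.coe_erase, Finset.coe_univ, Set.mem_sdiff, Set.mem_univ,
          Set.mem_singleton_iff, true_and]
        exact hb0 x hx)
    simp only [Finset.mem_filter, Finset.mem_univ, true_and] at hx hy
    exact ⟨x, hx, y, hy, hxy, h⟩
  set a := c x1 with ha
  have hab : a ≠ b0 := hb0 x1 hx1
  set W : Finset V := Finset.univ.filter fun x => c x = a ∨ c x = b0 with hW
  have hmW : ∀ x, x ∈ W ↔ (c x = a ∨ c x = b0) := fun x => by simp [hW]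
  obtain ⟨d, hd⟩ := bicol I V R hR W
  set c' : V → Fin m := fun x => if x ∈ W then (if d x = true then a else b0) else c x with hc'
  have hcW : ∀ x, x ∈ W → (c' x = a ∨ c' x = b0) := by
    intro x hx
    simp only [hc', if_pos hx]
    by_cases h : d x = true
    · left; rw [if_pos h]
    · right; rw [if_neg h]
  have hcnW : ∀ x, x ∉ W → c' x = c x := fun x hx => by simp only [hc', if_neg hx]
  have hother : ∀ i, seen R c' i \ {a, b0} = seen R c i \ {a, b0} := by
    intro i
    ext b
    simp only [Finset.mem_sdiff, mem_seen, Finset.mem_insert, Finset.mem_singleton, not_or]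
    constructor
    · rintro ⟨⟨x, hx, hxb⟩, hb1, hb2⟩
      refine ⟨⟨x, hx, ?_⟩, hb1, hb2⟩
      by_cases h : x ∈ W
      · rcases hcW x h with h' | h'
        · exact absurd (hxb.symm.trans h') hb1
        · exact absurd (hxb.symm.trans h') hb2
      · rw [← hcnW x h]; exact hxb
    · rintro ⟨⟨x, hx, hxb⟩, hb1, hb2⟩
      refine ⟨⟨x, hx, ?_⟩, hb1, hb2⟩
      have h : x ∉ W := by
        rw [hmW, hxb]
        push Not
        exact ⟨hb1, hb2⟩
      rw [hcnW x h]; exact hxb
  have hboth : ∀ i, (∃ x ∈ W, ∃ y ∈ W, x ≠ y ∧ R i x ∧ R i y) →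
      seen R c' i ∩ {a, b0} = {a, b0} := by
    intro i hi
    apply Finset.inter_eq_right.2
    intro b hb
    rw [mem_seen]
    simp only [Finset.mem_insert, Finset.mem_singleton] at hb
    rcases hb with hb | hb
    · obtain ⟨x, hx, hx1, hx2⟩ := hd i hi true
      refine ⟨x, hx1, ?_⟩
      simp only [hc', if_pos hx, hx2, if_true]
      exact hb.symm
    · obtain ⟨x, hx, hx1, hx2⟩ := hd i hi false
      refine ⟨x, hx1, ?_⟩
      simp only [hc', if_pos hx, hx2]
      simp [hb]
  have hone : ∀ i, (¬ ∃ x ∈ W, ∃ y ∈ W, x ≠ y ∧ R i x ∧ R i y) →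
      (seen R c i ∩ {a, b0}).card ≤ (seen R c' i ∩ {a, b0}).card := by
    intro i hi
    rcases (seen R c i ∩ {a, b0}).eq_empty_or_nonempty with h | ⟨b, hb⟩
    · rw [h]; simp
    · have h1 : (seen R c i ∩ {a, b0}).card ≤ 1 := by
        rw [Finset.card_le_one]
        intro p hp q hq
        by_contra hpq
        simp only [Finset.mem_inter, mem_seen, Finset.mem_insert, Finset.mem_singleton] at hp hq
        obtain ⟨⟨x, hx, hxp⟩, hp2⟩ := hp
        obtain ⟨⟨y, hy, hyq⟩, hq2⟩ := hq
        refine hi ⟨x, (hmW x).2 ?_, y, (hmW y).2 ?_, ?_, hx, hy⟩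
        · rw [hxp]; exact hp2
        · rw [hyq]; exact hq2
        · rintro rfl
          exact hpq (hxp.symm.trans hyq)
      simp only [Finset.mem_inter, mem_seen, Finset.mem_insert, Finset.mem_singleton] at hb
      obtain ⟨⟨x, hx, hxb⟩, hb2⟩ := hb
      have hxW : x ∈ W := (hmW x).2 (by rw [hxb]; exact hb2)
      have h2 : (seen R c' i ∩ {a, b0}).Nonempty := by
        refine ⟨c' x, ?_⟩
        simp only [Finset.mem_inter, mem_seen, Finset.mem_insert, Finset.mem_singleton]
        exact ⟨⟨x, hx, rfl⟩, hcW x hxW⟩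
      have h3 := Finset.card_pos.2 h2
      omega
  have hle : ∀ i, (seen R c i).card ≤ (seen R c' i).card := by
    intro i
    rw [← Finset.card_sdiff_add_card_inter (seen R c i) {a, b0},
      ← Finset.card_sdiff_add_card_inter (seen R c' i) {a, b0}, hother i]
    apply Nat.add_le_add_left
    by_cases h : ∃ x ∈ W, ∃ y ∈ W, x ≠ y ∧ R i x ∧ R i y
    · rw [hboth i h]
      exact Finset.card_le_card Finset.inter_subset_right
    · exact hone i h
  have hlt : (seen R c i0).card < (seen R c' i0).card := by
    rw [← Finset.card_sdiff_add_card_inter (seen R c i0) {a, b0},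
      ← Finset.card_sdiff_add_card_inter (seen R c' i0) {a, b0}, hother i0]
    apply Nat.add_lt_add_left
    rw [hboth i0 ⟨x1, (hmW x1).2 (Or.inl rfl), y1, (hmW y1).2 (Or.inl hcxy.symm), hxy1, hx1, hy1⟩]
    apply Finset.card_lt_card
    refine ⟨Finset.inter_subset_right, fun h => ?_⟩
    have h1 : b0 ∈ seen R c i0 ∩ {a, b0} := h (by simp)
    rw [Finset.mem_inter, mem_seen] at h1
    obtain ⟨⟨x, hx, hxb⟩, _⟩ := h1
    exact hb0 x hx hxb
  have := hc c'
  have h2 : ∑ i, (seen R c i).card < ∑ i, (seen R c' i).card :=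
    Finset.sum_lt_sum (fun i _ => hle i) ⟨i0, Finset.mem_univ _, hlt⟩
  omega

open Classical in
/-- **DC-ROUND.** -/
theorem round : S_ROUND := by
  intro I V _ _ R hR a m hm hcov
  -- the blow-up
  set R' : I → (Σ x : V, Fin (a x)) → Prop := fun i p => R i p.1 with hR'
  have hB : RelBalanced R' := by
    intro k hk hk3 e x hx hcon
    have : NeZero k := ⟨by omega⟩
    have : Fact (1 < k) := ⟨by omega⟩
    have h12 : (1 : ZMod k) ≠ 0 := one_ne_zero
    have h22 : (1 + 1 : ZMod k) ≠ 0 := by
      intro h
      have h1 : ((2 : ℕ) : ZMod k) = 0 := by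
        rw [← h]; push_cast; ring
      rw [ZMod.natCast_eq_zero_iff] at h1
      have := Nat.le_of_dvd (by norm_num) h1
      omega
    refine hR k hk hk3 e (fun j => (x j).1) ?_ hcon
    intro j j' hjj
    simp only at hjj
    -- `j` and `j'` are in the same edges
    have key : ∀ i, (j = i ∨ j = i + 1) ↔ (j' = i ∨ j' = i + 1) := by
      intro i
      rw [← hcon i j, ← hcon i j']
      simp only [hR', hjj]
    have h1 := (key j).1 (Or.inl rfl)
    rcases h1 with h1 | h1
    · exact h1.symm
    · have h2 := (key j').2 (Or.inl rfl)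
      rcases h2 with h2 | h2
      · exact h2
      · exfalso
        rw [h1] at h2
        apply h22
        have : j + (1 + 1) = j + 0 := by rw [add_zero, ← add_assoc]; exact h2.symm
        exact add_left_cancel this
  have hcard : ∀ i, m ≤ ({p | R' i p} : Set (Σ x : V, Fin (a x))).ncard := by
    intro i
    refine (hcov i).trans (le_of_eq ?_)
    rw [Set.ncard_eq_toFinset_card']
    have : ({p | R' i p} : Set (Σ x : V, Fin (a x))).toFinset =
        (Finset.univ.filter fun x => R i x).sigma fun x => (Finset.univ : Finset (Fin (a x))) := by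
      ext p; simp [hR']
    rw [this, Finset.card_sigma]
    simp
  obtain ⟨c, hc⟩ := good I _ R' hB m hm hcard
  -- the smallest class
  have : NeZero m := ⟨by omega⟩
  obtain ⟨b, hb⟩ := Finite.exists_min (fun b : Fin m => (Finset.univ.filter fun p => c p = b).card)
  refine ⟨(Finset.univ.filter fun p => c p = b).image Sigma.fst, fun i => ?_, ?_⟩
  · obtain ⟨p, hp, hpb⟩ := hc i b
    exact ⟨p.1, Finset.mem_image.2 ⟨p, by simp [hpb], rfl⟩, hp⟩
  · have h1 : ∑ b : Fin m, (Finset.univ.filter fun p => c p = b).card = ∑ x, a x := by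
      rw [Finset.sum_card_fiberwise_eq_card_filter]
      simp
    have h2 : m * (Finset.univ.filter fun p => c p = b).card ≤ ∑ x, a x := by
      rw [← h1]
      calc m * (Finset.univ.filter fun p => c p = b).card
          = ∑ _b' : Fin m, (Finset.univ.filter fun p => c p = b).card := by simp
        _ ≤ _ := Finset.sum_le_sum fun b' _ => hb b'
    exact (Nat.mul_le_mul_left m Finset.card_image_le).trans h2

end Pool.Agent.Run7.h232.DC
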