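import Pool.Agent.Run7.h232.DC.Good
import Pool.Agent.Run7.h232.DC.Alg
import Pool.Agent.Y600.DC.NB

/-!
# DOMINATING SET on balanced chordal graphs: assembly
-/

set_option autoImplicit false

namespace Pool.Agent.Run7.h232.DC

open Pool.Agent.NPC Pool.Agent.NPC.R671 Pool.Agent.Y600.DC

/-- closed neighbourhoods, as a relation -/
theorem relBalanced {n : ℕ} {G : SimpleGraph (Fin n)} (hG : NbBalanced G) :
    RelBalanced (fun i x : Fin n => Close G i x) := by
  intro m hm hm3 e x hx hcon
  have : NeZero m := ⟨by omega⟩
  have : Fact (1 < m) := ⟨by omega⟩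
  have h22 : (1 + 1 : ZMod m) ≠ 0 := by
    intro h
    have h1 : ((2 : ℕ) : ZMod m) = 0 := by
      rw [← h]; push_cast; ring
    rw [ZMod.natCast_eq_zero_iff] at h1
    have := Nat.le_of_dvd (by norm_num) h1
    omega
  refine hG m hm hm3 e x ?_ hx hcon
  intro i i' hii
  have key : ∀ j, (j = i ∨ j = i + 1) ↔ (j = i' ∨ j = i' + 1) := by
    intro j
    rw [← hcon i j, ← hcon i' j, hii]
  rcases (key i).1 (Or.inl rfl) with h1 | h1
  · exact h1
  · rcases (key i').2 (Or.inl rfl) with h2 | h2
    · exact h2.symm
    · exfalso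
      rw [h1] at h2
      apply h22
      have : i' + (1 + 1) = i' + 0 := by rw [add_zero, ← add_assoc]; exact h2.symm
      exact add_left_cancel this

/-- what the algorithm decides -/
theorem decides {n : ℕ} (hn : 0 < n) (G : SimpleGraph (Fin n)) (hG : NbBalanced G)
    (pick : ℕ → Fin n) (hp : Greedy G pick (rounds n)) (k : ℕ) :
    (∀ v, rounds n < (k + 1) * cnt G pick (rounds n) v) ↔
      ∃ D : Finset (Fin n), D.card ≤ k ∧ Dominating G D := by
  classical
  constructor
  · intro h
    -- the multiplicities
    set a : Fin n → ℕ := fun u => ((Finset.range (rounds n)).filter fun t => pick t = u).card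
      with ha
    have hsum : ∑ u, a u = rounds n := by
      simp only [ha]
      rw [Finset.sum_card_fiberwise_eq_card_filter]
      simp
    have hcnt : ∀ v, cnt G pick (rounds n) v =
        ∑ x ∈ Finset.univ.filter (fun x => Close G v x), a x := by
      intro v
      simp only [ha]
      rw [Finset.sum_card_fiberwise_eq_card_filter]
      unfold cnt
      simp
    have : Nonempty (Fin n) := ⟨⟨0, hn⟩⟩
    obtain ⟨v0, hv0⟩ := Finite.exists_min (fun v => cnt G pick (rounds n) v)
    have hpos : 1 ≤ cnt G pick (rounds n) v0 := by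
      by_contra h0
      have h1 : cnt G pick (rounds n) v0 = 0 := by omega
      have := h v0
      rw [h1] at this
      omega
    obtain ⟨D, hD, hDc⟩ := round (Fin n) (Fin n) (fun i x => Close G i x) (relBalanced hG) a
      (cnt G pick (rounds n) v0) hpos (fun i => by
        refine (hv0 i).trans (le_of_eq ?_)
        rw [hcnt i])
    refine ⟨D, ?_, ?_⟩
    · rw [hsum] at hDc
      have h1 := h v0
      by_contra hcon
      push Not at hcon
      have h2 : (k + 1) * cnt G pick (rounds n) v0 ≤ D.card * cnt G pick (rounds n) v0 :=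
        Nat.mul_le_mul_right _ hcon
      rw [mul_comm D.card] at h2
      omega
    · intro v hv
      obtain ⟨x, hx, hvx⟩ := hD v
      rcases hvx with h1 | h1
      · rw [h1] at hv; exact absurd hx hv
      · exact ⟨x, hx, h1⟩
  · rintro ⟨D, hDk, hD⟩ v
    have h1 := mwu n G pick hp D hD v
    exact lt_of_lt_of_le h1 (Nat.mul_le_mul_right _ (by omega))

end Pool.Agent.Run7.h232.DC
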