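import Pool.Agent.Y600.DC.Stm

/-!
# The analysis of the multiplicative weights
-/

set_option autoImplicit false

namespace Pool.Agent.Run7.h232.DC

open Pool.Agent.Y600.DC

section Pot

variable {n : ℕ} (G : SimpleGraph (Fin n)) (pick : ℕ → Fin n)

/-- the weight of a vertex before round `t` -/
noncomputable def wt (t : ℕ) (v : Fin n) : ℕ :=
  (2 * n + 1) ^ cnt G pick t v * (2 * n + 2) ^ (t - cnt G pick t v)

/-- the potential -/
noncomputable def pot (t : ℕ) : ℕ := ∑ v, wt G pick t v

open Classical in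
theorem cnt_le (t : ℕ) (v : Fin n) : cnt G pick t v ≤ t := by
  unfold cnt
  exact (Finset.card_filter_le _ _).trans (by simp)

open Classical in
theorem cnt_succ (t : ℕ) (v : Fin n) : cnt G pick (t + 1) v =
    cnt G pick t v + (if Close G v (pick t) then 1 else 0) := by
  unfold cnt
  rw [Finset.range_add_one, Finset.filter_insert]
  split_ifs with h
  · rw [Finset.card_insert_of_notMem (by simp)]
  · rfl

open Classical in
theorem wt_succ (t : ℕ) (v : Fin n) : wt G pick (t + 1) v +
    (if Close G v (pick t) then wt G pick t v else 0) = (2 * n + 2) * wt G pick t v := by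
  unfold wt
  rw [cnt_succ]
  have h := cnt_le G pick t v
  split_ifs with hc
  · have h1 : t + 1 - (cnt G pick t v + 1) = t - cnt G pick t v := by omega
    rw [h1, pow_succ]
    ring
  · have h1 : t + 1 - (cnt G pick t v + 0) = t - cnt G pick t v + 1 := by omega
    rw [h1, pow_succ, add_zero, add_zero]
    ring

open Classical in
theorem pot_succ (t : ℕ) : pot G pick (t + 1) + load G pick t (pick t) =
    (2 * n + 2) * pot G pick t := by
  unfold pot load
  rw [Finset.sum_filter, ← Finset.sum_add_distrib, Finset.mul_sum]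
  exact Finset.sum_congr rfl fun v _ => wt_succ G pick t v

open Classical in
/-- the total load of a dominating set is at least the potential -/
theorem pot_le {D : Finset (Fin n)} (hD : Dominating G D) (t : ℕ) :
    pot G pick t ≤ ∑ u ∈ D, load G pick t u := by
  unfold pot load
  simp only [Finset.sum_filter]
  rw [Finset.sum_comm]
  refine Finset.sum_le_sum fun v _ => ?_
  obtain ⟨u, hu, hvu⟩ : ∃ u ∈ D, Close G v u := by
    by_cases h : v ∈ D
    · exact ⟨v, h, Or.inl rfl⟩
    · obtain ⟨w, hw, hvw⟩ := hD v h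
      exact ⟨w, hw, Or.inr hvw⟩
  refine le_trans ?_ (Finset.single_le_sum (f := fun u => if Close G v u then
    (2 * n + 1) ^ cnt G pick t v * (2 * n + 2) ^ (t - cnt G pick t v) else 0)
    (fun _ _ => Nat.zero_le _) hu)
  simp only [if_pos hvu]
  exact le_rfl

theorem load_ge {D : Finset (Fin n)} (hD : Dominating G D) {T t : ℕ} (hg : Greedy G pick T)
    (ht : t < T) : pot G pick t ≤ D.card * load G pick t (pick t) := by
  refine (pot_le G pick hD t).trans ?_
  calc ∑ u ∈ D, load G pick t u ≤ ∑ _u ∈ D, load G pick t (pick t) :=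
        Finset.sum_le_sum fun u _ => hg t ht u
    _ = _ := by simp

theorem pot_bound {D : Finset (Fin n)} (hD : Dominating G D) {T : ℕ} (hg : Greedy G pick T)
    (hd : 0 < D.card) :
    ∀ t ≤ T, (pot G pick t : ℝ) ≤ n * ((2 * n + 2) - 1 / (D.card : ℝ)) ^ t := by
  have hd' : (0 : ℝ) < D.card := by exact_mod_cast hd
  have hb : (0 : ℝ) ≤ (2 * n + 2) - 1 / (D.card : ℝ) := by
    have h1 : 1 / (D.card : ℝ) ≤ 1 := by
      rw [div_le_one hd']
      exact_mod_cast hd
    have h2 : (0 : ℝ) ≤ n := Nat.cast_nonneg n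
    linarith
  intro t
  induction t with
  | zero =>
    intro _
    simp only [pow_zero, mul_one]
    have : pot G pick 0 = n := by
      unfold pot wt cnt
      simp
    rw [this]
  | succ t ih =>
    intro ht
    have h1 := ih (by omega)
    have h2 : ((pot G pick (t + 1) : ℕ) : ℝ) + load G pick t (pick t) =
        (2 * n + 2) * pot G pick t := by
      exact_mod_cast pot_succ G pick t
    have h3 : (pot G pick t : ℝ) ≤ D.card * load G pick t (pick t) := by
      exact_mod_cast load_ge G pick hD hg (by omega : t < T)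
    have h4 : (pot G pick t : ℝ) / D.card ≤ load G pick t (pick t) := by
      rw [div_le_iff₀ hd']
      linarith
    have h5 : (pot G pick (t + 1) : ℝ) ≤ ((2 * n + 2) - 1 / (D.card : ℝ)) * pot G pick t := by
      have : (pot G pick t : ℝ) / D.card = 1 / (D.card : ℝ) * pot G pick t := by ring
      rw [this] at h4
      nlinarith
    calc (pot G pick (t + 1) : ℝ) ≤ ((2 * n + 2) - 1 / (D.card : ℝ)) * pot G pick t := h5
      _ ≤ ((2 * n + 2) - 1 / (D.card : ℝ)) * (n * ((2 * n + 2) - 1 / (D.card : ℝ)) ^ t) :=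
        mul_le_mul_of_nonneg_left h1 hb
      _ = _ := by rw [pow_succ]; ring

end Pot

/-- the numerical part -/
theorem mwu_num (n d c T : ℕ) (hn : 1 ≤ n) (hd : 1 ≤ d) (hdn : d ≤ n) (hc : c ≤ T)
    (hT : T = 8 * (n + 1) ^ 4)
    (h : ((2 * n + 1 : ℝ)) ^ c * (2 * n + 2) ^ (T - c) ≤ n * ((2 * n + 2) - 1 / (d : ℝ)) ^ T) :
    T < (d + 1) * c := by
  by_contra hcon
  push Not at hcon
  have hn' : (1 : ℝ) ≤ n := by exact_mod_cast hn
  have hd' : (1 : ℝ) ≤ d := by exact_mod_cast hd
  have hdn' : (d : ℝ) ≤ n := by exact_mod_cast hdn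
  set N : ℝ := 2 * n + 2 with hN
  have hNpos : 0 < N := by positivity
  have hcon' : ((d : ℝ) + 1) * c ≤ T := by exact_mod_cast hcon
  -- divide by `N ^ T`
  have h1 : (1 - 1 / N) ^ c ≤ n * (1 - 1 / (N * d)) ^ T := by
    have e1 : (2 * (n : ℝ) + 1) = N * (1 - 1 / N) := by
      field_simp
      rw [hN]; ring
    have e2 : N - 1 / (d : ℝ) = N * (1 - 1 / (N * d)) := by
      field_simp
    rw [e1, e2, mul_pow, mul_pow] at h
    have e3 : N ^ T = N ^ c * N ^ (T - c) := by rw [← pow_add]; congr 1; omega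
    rw [e3] at h
    have hp : 0 < N ^ c * N ^ (T - c) := by positivity
    have h2 : (N ^ c * N ^ (T - c)) * (1 - 1 / N) ^ c ≤
        (N ^ c * N ^ (T - c)) * (n * (1 - 1 / (N * d)) ^ T) := by
      calc (N ^ c * N ^ (T - c)) * (1 - 1 / N) ^ c
          = N ^ c * (1 - 1 / N) ^ c * N ^ (T - c) := by ring
        _ ≤ _ := h
        _ = _ := by ring
    exact le_of_mul_le_mul_left h2 hp
  have hN4 : (4 : ℝ) ≤ N := by rw [hN]; linarith
  have hNd : (4 : ℝ) ≤ N * d := by nlinarith
  have p1 : (0 : ℝ) < 1 - 1 / N := by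
    have : 1 / N < 1 := by rw [div_lt_one hNpos]; linarith
    linarith
  have p2 : (0 : ℝ) < 1 - 1 / (N * d) := by
    have : 1 / (N * d) < 1 := by rw [div_lt_one (by linarith)]; linarith
    linarith
  have h2 := Real.log_le_log (pow_pos p1 c) h1
  rw [Real.log_pow, Real.log_mul (by positivity) (by positivity), Real.log_pow] at h2
  have h3 : Real.log n ≤ n := (Real.log_le_sub_one_of_pos (by linarith)).trans (by linarith)
  have h4 : Real.log (1 - 1 / (N * d)) ≤ - (1 / (N * d)) :=
    (Real.log_le_sub_one_of_pos p2).trans (by linarith)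
  have h5 : - (1 / (N - 1)) ≤ Real.log (1 - 1 / N) := by
    have h6 := Real.log_le_sub_one_of_pos (x := (1 - 1 / N)⁻¹) (by positivity)
    rw [Real.log_inv] at h6
    have h7 : (1 - 1 / N)⁻¹ - 1 = 1 / (N - 1) := by
      have : N - 1 ≠ 0 := by linarith
      have h8 : 1 - 1 / N ≠ 0 := p1.ne'
      field_simp
      ring
    linarith
  have hT0 : (0 : ℝ) ≤ T := Nat.cast_nonneg T
  have hc0 : (0 : ℝ) ≤ c := Nat.cast_nonneg c
  have h6 : T * (1 / (N * d)) ≤ n + c * (1 / (N - 1)) := by
    have a1 := mul_le_mul_of_nonneg_left h5 hc0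
    have a2 := mul_le_mul_of_nonneg_left h4 hT0
    linarith
  have h7 : (c : ℝ) ≤ T / (d + 1) := by
    rw [le_div_iff₀ (by linarith)]
    linarith
  have h8 : T * (1 / (N * d)) ≤ n + T / (d + 1) * (1 / (N - 1)) :=
    h6.trans (by
      have : 0 ≤ 1 / (N - 1) := by
        apply div_nonneg zero_le_one
        linarith
      have := mul_le_mul_of_nonneg_right h7 this
      linarith)
  have hN1 : (0 : ℝ) < N - 1 := by linarith
  have h9 : (T : ℝ) * (N - d - 1) ≤ n * (N * d * (d + 1) * (N - 1)) := by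
    have hp : (0 : ℝ) < N * d * (d + 1) * (N - 1) := by positivity
    have := mul_le_mul_of_nonneg_right h8 hp.le
    have e1 : T * (1 / (N * d)) * (N * d * (d + 1) * (N - 1)) = T * ((d + 1) * (N - 1)) := by
      field_simp
    have e2 : (n + T / (d + 1) * (1 / (N - 1))) * (N * d * (d + 1) * (N - 1)) =
        n * (N * d * (d + 1) * (N - 1)) + T * (N * d) := by
      field_simp
    rw [e1, e2] at this
    nlinarith
  have h10 : (T : ℝ) * (n + 1) ≤ T * (N - d - 1) := by
    apply mul_le_mul_of_nonneg_left _ hT0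
    rw [hN]; linarith
  have h11 : n * (N * d * (d + 1) * (N - 1)) ≤ n * ((2 * (n + 1)) * n * (n + 1) * (2 * (n + 1))) := by
    apply mul_le_mul_of_nonneg_left _ (by linarith)
    have b1 : N * d * (d + 1) * (N - 1) ≤ N * n * (n + 1) * (N - 1) := by
      apply mul_le_mul_of_nonneg_right _ hN1.le
      have : N * d ≤ N * n := mul_le_mul_of_nonneg_left hdn' hNpos.le
      nlinarith
    refine b1.trans ?_
    rw [hN]
    have : (2 * (n : ℝ) + 2 - 1) ≤ 2 * (n + 1) := by linarith
    have h0 : (0 : ℝ) ≤ (2 * n + 2) * n * (n + 1) := by positivity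
    calc (2 * (n : ℝ) + 2) * n * (n + 1) * (2 * n + 2 - 1)
        ≤ (2 * n + 2) * n * (n + 1) * (2 * (n + 1)) := mul_le_mul_of_nonneg_left this h0
      _ = _ := by ring
  have h12 : (T : ℝ) * (n + 1) ≤ 4 * n ^ 2 * (n + 1) ^ 2 * (n + 1) := by
    refine (h10.trans (h9.trans h11)).trans (le_of_eq ?_)
    ring
  have h13 : (T : ℝ) ≤ 4 * n ^ 2 * (n + 1) ^ 2 := le_of_mul_le_mul_right h12 (by positivity)
  have h14 : (T : ℝ) = 8 * (n + 1) ^ 4 := by rw [hT]; push_cast; ring
  rw [h14] at h13
  have h15 : (n : ℝ) ^ 2 ≤ (n + 1) ^ 2 := by nlinarith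
  have h16 : (0 : ℝ) < (n + 1) ^ 2 := by positivity
  nlinarith

/-- **DC-MWU.** -/
theorem mwu : S_MWU := by
  intro n G pick hg D hD v
  have hn : 1 ≤ n := by
    rcases Nat.eq_zero_or_pos n with h | h
    · subst h; exact v.elim0
    · exact h
  have hd : 0 < D.card := by
    rw [Finset.card_pos]
    by_contra h
    rw [Finset.not_nonempty_iff_eq_empty] at h
    subst h
    obtain ⟨w, hw, _⟩ := hD v (by simp)
    simp at hw
  have hdn : D.card ≤ n := by simpa using Finset.card_le_univ D
  refine mwu_num n D.card _ _ hn hd hdn (cnt_le G pick _ v) rfl ?_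
  refine le_trans ?_ (pot_bound G pick hD hg hd _ le_rfl)
  have h1 : wt G pick (rounds n) v ≤ pot G pick (rounds n) :=
    Finset.single_le_sum (f := fun v => wt G pick (rounds n) v) (fun _ _ => Nat.zero_le _)
      (Finset.mem_univ v)
  have h2 : ((wt G pick (rounds n) v : ℕ) : ℝ) ≤ (pot G pick (rounds n) : ℕ) := by
    exact_mod_cast h1
  refine le_trans (le_of_eq ?_) h2
  unfold wt
  push_cast
  rfl

end Pool.Agent.Run7.h232.DC
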